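import Pool.Agent.KO.U.Defs
import Pool.Agent.FR.CR

/-!
Project KO, block U, row U5: the affine coordinate ring of the family (helper89).
-/

set_option autoImplicit false

namespace Pool.Agent.KO.U

open MvPolynomial

variable {k : Type} [Field k]

/-- the order `(y, x, u, w)` of the variables -/
def u5_perm : Fin 4 ≃ Fin 4 where
  toFun := ![2, 3, 1, 0]
  invFun := ![3, 2, 0, 1]
  left_inv := by decide
  right_inv := by decide

variable (k) in
/-- the isomorphism of the polynomial rings -/
noncomputable def u5_e : MvPolynomial (Fin 4) k ≃+*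
    Polynomial (Polynomial (MvPolynomial (Fin 2) k)) :=
  (renameEquiv k u5_perm).toRingEquiv.trans ((finSuccEquiv k 3).toRingEquiv.trans
    (Polynomial.mapEquiv (finSuccEquiv k 2).toRingEquiv))

theorem u5_apply (P : MvPolynomial (Fin 4) k) : u5_e k P =
    (finSuccEquiv k 3 (rename u5_perm P)).map ((finSuccEquiv k 2).toRingEquiv : _ →+* _) := rfl

theorem u5_X3 : u5_e k (X 3) = Polynomial.X := by
  rw [u5_apply, rename_X]
  change (finSuccEquiv k 3 (X 0)).map _ = _
  rw [finSuccEquiv_X_zero, Polynomial.map_X]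

theorem u5_X2 : u5_e k (X 2) = Polynomial.C Polynomial.X := by
  rw [u5_apply, rename_X]
  change (finSuccEquiv k 3 (X (Fin.succ 0))).map _ = _
  rw [finSuccEquiv_X_succ, Polynomial.map_C]
  congr 1
  exact finSuccEquiv_X_zero

theorem u5_X0 : u5_e k (X 0) = Polynomial.C (Polynomial.C (X 0)) := by
  rw [u5_apply, rename_X]
  change (finSuccEquiv k 3 (X (Fin.succ 1))).map _ = _
  rw [finSuccEquiv_X_succ, Polynomial.map_C]
  congr 1
  exact finSuccEquiv_X_succ (j := 0)

theorem u5_X1 : u5_e k (X 1) = Polynomial.C (Polynomial.C (X 1)) := by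
  rw [u5_apply, rename_X]
  change (finSuccEquiv k 3 (X (Fin.succ 2))).map _ = _
  rw [finSuccEquiv_X_succ, Polynomial.map_C]
  congr 1
  exact finSuccEquiv_X_succ (j := 1)

theorem u5_C (t : k) : u5_e k (C t) = Polynomial.C (Polynomial.C (C t)) := by
  rw [u5_apply, rename_C, finSuccEquiv_apply, eval₂Hom_C, RingHom.comp_apply, Polynomial.map_C]
  congr 1
  change finSuccEquiv k 2 (C t) = _
  rw [finSuccEquiv_apply, eval₂Hom_C, RingHom.comp_apply]

theorem u5_gAff (t : k) : u5_e k (gAff t) = FR.U.wf (bA t) := by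
  unfold gAff bA FR.U.wf
  simp only [map_add, map_sub, map_mul, map_pow, map_one, u5_X0, u5_X1, u5_X2, u5_X3, u5_C]
  ring

/-- ROW U5a -/
theorem exists_equiv (t : k) : Nonempty (Raff t ≃+* FR.U.CR (bA t)) := by
  refine ⟨Ideal.quotientEquiv _ _ (u5_e k) ?_⟩
  rw [Ideal.map_span, Set.image_singleton]
  congr 2
  exact (u5_gAff t).symm

/-- ROW U5b -/
theorem isDomain_CR (t : k) : IsDomain (FR.U.CR (bA t)) := FR.U.isDomain_CR (bA t)

end Pool.Agent.KO.U
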