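import Pool.Agent.KO.U.Mason
import Pool.Agent.KO.U.Equiv
import Pool.Agent.FR.Pid
import Pool.Agent.FR.Nagata
import Pool.Agent.FR.Cop

/-!
# Project KO, block U: the affine coordinate ring is factorial
-/

set_option autoImplicit false

namespace Pool.Agent.KO.U

open MvPolynomial

variable {k : Type} [Field k]

theorem ufd_CR [CharZero k] (t : k) : UniqueFactorizationMonoid (FR.U.CR (bA t)) := by
  refine FR.U.ufd_of_generic (L := FractionRing (MvPolynomial (Fin 2) k)) _ fun P hP => ?_
  have : CharZero (FractionRing (MvPolynomial (Fin 2) k)) := charZero_of_injective_algebraMap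
    (algebraMap k (FractionRing (MvPolynomial (Fin 2) k))).injective
  refine FR.U.isPrincipal_of_no_point (L := FractionRing (MvPolynomial (Fin 2) k)) ?_
    (fun ξ η h0 => ?_) P hP
  · rw [Ne, FaithfulSMul.algebraMap_eq_zero_iff]
    exact (prime_bA t).ne_zero
  · obtain ⟨X, Y, Z, hZ, hYZ, h1⟩ := FR.U.exists_coprime (bA t) ξ η h0
    exact mason t hZ hYZ h1

end Pool.Agent.KO.U

namespace Pool.Agent.KO

variable {k : Type} [Field k]

theorem isDomain_Raff (t : k) : IsDomain (Raff t) := by
  obtain ⟨e⟩ := U.exists_equiv t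
  have := U.isDomain_CR t
  exact MulEquiv.isDomain _ e.toMulEquiv

theorem ufd_Raff [CharZero k] (t : k) : UniqueFactorizationMonoid (Raff t) := by
  obtain ⟨e⟩ := U.exists_equiv t
  exact MulEquiv.uniqueFactorizationMonoid e.symm.toMulEquiv (U.ufd_CR t)

end Pool.Agent.KO
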