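import Mathlib
import Pool.Agent.KO.Base

/-!
# Project KO, block U: definitions
-/

set_option autoImplicit false

namespace Pool.Agent.KO.U

open MvPolynomial

/-- the sextic `b` in the affine chart `z = 1`, variables `u = X 0`, `w = X 1` -/
noncomputable def bA {k : Type} [Field k] (t : k) : MvPolynomial (Fin 2) k :=
  C t * X 1 ^ 11 + X 0 * X 1 ^ 10 + X 0 ^ 12 * X 1 - 1 - X 1 ^ 9

/-- the weights of `u` and `w` -/
def w2 : Fin 2 → ℕ := ![5, 6]

end Pool.Agent.KO.U

namespace Pool.Agent.KO

/-- the affine coordinate ring of the family over a field -/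
abbrev Raff {k : Type} [Field k] (t : k) : Type := MvPolynomial (Fin 4) k ⧸ Ideal.span {gAff t}

end Pool.Agent.KO
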