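import Mathlib

/-!
# Project KO, block U: weighted degrees of polynomials
-/

set_option autoImplicit false

namespace Pool.Agent.KO.U

open MvPolynomial

section degree

variable {k : Type} [Field k] {m : ℕ} (w : Fin m → ℕ)

/-- the substitution `z_j ↦ T ^ (w j) z_j` -/
noncomputable def msPhi :
    MvPolynomial (Fin m) k →ₐ[k] Polynomial (MvPolynomial (Fin m) k) :=
  aeval fun j => Polynomial.C (X j) * Polynomial.X ^ w j

def msWt (s : Fin m →₀ ℕ) : ℕ := ∑ j, s j * w j

theorem msPhi_monomial (u : Fin m →₀ ℕ) (a : k) :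
    msPhi w (monomial u a) = Polynomial.C (monomial u a) * Polynomial.X ^ msWt w u := by
  unfold msPhi msWt
  rw [aeval_monomial, Finsupp.prod_fintype _ _ (fun _ => pow_zero _), monomial_eq,
    Finsupp.prod_fintype _ _ (fun _ => pow_zero _), map_mul, map_prod, ← Finset.prod_pow_eq_pow_sum,
    mul_assoc, ← Finset.prod_mul_distrib]
  congr 1
  refine Finset.prod_congr rfl fun j _ => ?_
  rw [mul_pow, map_pow, ← pow_mul, mul_comm (w j)]

theorem ms_coeff (f : MvPolynomial (Fin m) k) (N : ℕ) (s : Fin m →₀ ℕ) :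
    coeff s ((msPhi w f).coeff N) = if msWt w s = N then coeff s f else 0 := by
  classical
  induction f using MvPolynomial.induction_on' with
  | monomial u a =>
    rw [msPhi_monomial, Polynomial.coeff_C_mul, Polynomial.coeff_X_pow, mul_ite, mul_one, mul_zero,
      coeff_monomial]
    by_cases h : u = s
    · subst h
      by_cases h1 : N = msWt w u
      · rw [if_pos h1, if_pos h1.symm, if_pos rfl, coeff_monomial, if_pos rfl]
      · rw [if_neg h1, if_neg (Ne.symm h1), coeff_zero]
    · rw [if_neg h, ite_self]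
      split_ifs
      · rw [coeff_monomial, if_neg h]
      · rw [coeff_zero]
  | add p q hp hq =>
    rw [map_add, Polynomial.coeff_add, coeff_add, hp, hq, coeff_add]
    split_ifs
    · rfl
    · rw [add_zero]

noncomputable def msD (f : MvPolynomial (Fin m) k) : ℕ := (msPhi w f).natDegree

theorem msPhi_ne {f : MvPolynomial (Fin m) k} (hf : f ≠ 0) : msPhi w f ≠ 0 := by
  obtain ⟨s, hs⟩ := MvPolynomial.ne_zero_iff.1 hf
  intro h
  have h1 := ms_coeff w f (msWt w s) s
  rw [h, Polynomial.coeff_zero, coeff_zero, if_pos rfl] at h1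
  exact hs h1.symm

theorem msD_ge {f : MvPolynomial (Fin m) k} {s : Fin m →₀ ℕ} (hs : coeff s f ≠ 0) :
    msWt w s ≤ msD w f := by
  refine Polynomial.le_natDegree_of_ne_zero fun h => hs ?_
  have h1 := ms_coeff w f (msWt w s) s
  rw [h, coeff_zero, if_pos rfl] at h1
  exact h1.symm

theorem msD_exists {f : MvPolynomial (Fin m) k} (hf : f ≠ 0) :
    ∃ s, coeff s f ≠ 0 ∧ msWt w s = msD w f := by
  have h1 : (msPhi w f).coeff (msD w f) ≠ 0 := by
    have h2 := Polynomial.leadingCoeff_ne_zero.2 (msPhi_ne w hf)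
    exact h2
  obtain ⟨s, hs⟩ := MvPolynomial.ne_zero_iff.1 h1
  rw [ms_coeff] at hs
  by_cases h : msWt w s = msD w f
  · rw [if_pos h] at hs
    exact ⟨s, hs, h⟩
  · rw [if_neg h] at hs
    exact absurd rfl hs

theorem msD_mul {f g : MvPolynomial (Fin m) k} (hf : f ≠ 0) (hg : g ≠ 0) :
    msD w (f * g) = msD w f + msD w g := by
  unfold msD
  rw [map_mul, Polynomial.natDegree_mul (msPhi_ne w hf) (msPhi_ne w hg)]

theorem msD_pow (f : MvPolynomial (Fin m) k) (n : ℕ) :
    msD w (f ^ n) = n * msD w f := by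
  unfold msD
  rw [map_pow, Polynomial.natDegree_pow]

theorem msD_add (f g : MvPolynomial (Fin m) k) :
    msD w (f + g) ≤ max (msD w f) (msD w g) := by
  unfold msD
  rw [map_add]
  exact Polynomial.natDegree_add_le _ _

theorem msD_X_pow (i : Fin m) (n : ℕ) : n * w i ≤ msD w (X i ^ n : MvPolynomial (Fin m) k) := by
  have h1 : coeff (Finsupp.single i n) (X i ^ n : MvPolynomial (Fin m) k) ≠ 0 := by
    rw [X_pow_eq_monomial, coeff_monomial, if_pos rfl]
    exact one_ne_zero
  have h2 := msD_ge w h1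
  have h3 : msWt w (Finsupp.single i n) = n * w i := by
    unfold msWt
    rw [Finset.sum_eq_single i]
    · rw [Finsupp.single_eq_same]
    · intro j _ hj
      rw [Finsupp.single_eq_of_ne hj, zero_mul]
    · intro h
      exact absurd (Finset.mem_univ i) h
  rwa [h3] at h2

theorem msWt_add_single (s : Fin m →₀ ℕ) (i : Fin m) :
    msWt w (s + Finsupp.single i 1) = msWt w s + w i := by
  unfold msWt
  simp only [Finsupp.add_apply, add_mul, Finset.sum_add_distrib]
  congr 1
  rw [Finset.sum_eq_single i]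
  · rw [Finsupp.single_eq_same, one_mul]
  · intro j _ hj
    rw [Finsupp.single_eq_of_ne hj, zero_mul]
  · intro h
    exact absurd (Finset.mem_univ i) h

theorem msD_pderiv {f : MvPolynomial (Fin m) k} {i : Fin m} (h : pderiv i f ≠ 0) :
    msD w (pderiv i f) + w i ≤ msD w f := by
  obtain ⟨s, hs, h1⟩ := msD_exists w h
  rw [coeff_pderiv] at hs
  have h2 := msD_ge w (left_ne_zero_of_mul hs)
  rw [msWt_add_single] at h2
  omega

theorem msD_degreeOf (f : MvPolynomial (Fin m) k) (i : Fin m) :
    degreeOf i f * w i ≤ msD w f := by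
  classical
  by_cases hf : f = 0
  · rw [hf, degreeOf_zero, zero_mul]
    exact Nat.zero_le _
  have h1 : f.support.Nonempty := by
    rwa [Finset.nonempty_iff_ne_empty, Ne, MvPolynomial.support_eq_empty]
  obtain ⟨s, hs, h2⟩ := Finset.exists_mem_eq_sup f.support h1 (fun s => s i)
  rw [degreeOf_eq_sup, h2]
  refine le_trans ?_ (msD_ge w (MvPolynomial.mem_support_iff.1 hs))
  unfold msWt
  exact Finset.single_le_sum (f := fun j => s j * w j) (fun _ _ => Nat.zero_le _)
    (Finset.mem_univ i)

/-- degree bound, with the convention that `0` satisfies every bound -/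
def MsB (f : MvPolynomial (Fin m) k) (N : ℤ) : Prop := f = 0 ∨ (msD w f : ℤ) ≤ N

theorem MsB.mul {w : Fin m → ℕ} {f g : MvPolynomial (Fin m) k} {M N : ℤ} (hf : MsB w f M)
    (hg : MsB w g N) : MsB w (f * g) (M + N) := by
  by_cases h1 : f = 0
  · left; rw [h1, zero_mul]
  by_cases h2 : g = 0
  · left; rw [h2, mul_zero]
  right
  rw [msD_mul w h1 h2]
  have h3 := hf.resolve_left h1
  have h4 := hg.resolve_left h2
  push_cast
  linarith

theorem MsB.add {w : Fin m → ℕ} {f g : MvPolynomial (Fin m) k} {N : ℤ} (hf : MsB w f N)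
    (hg : MsB w g N) : MsB w (f + g) N := by
  by_cases h1 : f = 0
  · rw [h1, zero_add]; exact hg
  by_cases h2 : g = 0
  · rw [h2, add_zero]; exact hf
  right
  have h3 := hf.resolve_left h1
  have h4 := hg.resolve_left h2
  have h5 := msD_add w f g
  have h6 : ((msD w (f + g) : ℕ) : ℤ) ≤ ((max (msD w f) (msD w g) : ℕ) : ℤ) := by exact_mod_cast h5
  refine h6.trans ?_
  rw [Nat.cast_max]
  exact max_le h3 h4

theorem MsB.neg {w : Fin m → ℕ} {f : MvPolynomial (Fin m) k} {N : ℤ} (hf : MsB w f N) :
    MsB w (-f) N := by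
  rcases hf with h | h
  · left; rw [h, neg_zero]
  · right
    have : msD w (-f) = msD w f := by
      unfold msD
      rw [map_neg, Polynomial.natDegree_neg]
    rw [this]
    exact h

theorem MsB.mono {w : Fin m → ℕ} {f : MvPolynomial (Fin m) k} {M N : ℤ} (hf : MsB w f M)
    (h : M ≤ N) : MsB w f N := hf.imp id fun h1 => h1.trans h

theorem MsB.self (f : MvPolynomial (Fin m) k) : MsB w f (msD w f) := Or.inr le_rfl

theorem MsB.const (c : k) : MsB w (C c) 0 := by
  right
  have h : msD w (C c : MvPolynomial (Fin m) k) = 0 := by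
    unfold msD msPhi
    rw [aeval_C]
    exact Polynomial.natDegree_C _
  rw [h]
  exact le_rfl

theorem MsB.pderiv {w : Fin m → ℕ} {f : MvPolynomial (Fin m) k} {N : ℤ} (i : Fin m)
    (hf : MsB w f N) : MsB w (pderiv i f) (N - w i) := by
  by_cases h : MvPolynomial.pderiv i f = 0
  · exact Or.inl h
  · right
    have h1 := msD_pderiv w h
    have h2 : f ≠ 0 := by
      rintro rfl
      exact h (map_zero _)
    have h3 := hf.resolve_left h2
    have h4 : ((msD w (MvPolynomial.pderiv i f) : ℕ) : ℤ) + w i ≤ msD w f := by exact_mod_cast h1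
    linarith

theorem msD_zero : msD w (0 : MvPolynomial (Fin m) k) = 0 := by
  unfold msD
  rw [map_zero, Polynomial.natDegree_zero]

theorem msD_le {f : MvPolynomial (Fin m) k} {N : ℕ} (h : ∀ s, coeff s f ≠ 0 → msWt w s ≤ N) :
    msD w f ≤ N := by
  by_cases hf : f = 0
  · subst hf
    unfold msD
    rw [map_zero, Polynomial.natDegree_zero]
    exact Nat.zero_le _
  · obtain ⟨s, hs, h1⟩ := msD_exists w hf
    rw [← h1]
    exact h s hs

theorem MsB.X_pow (w : Fin m → ℕ) (i : Fin m) (n : ℕ) :
    MsB w (X i ^ n : MvPolynomial (Fin m) k) (n * w i) := by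
  right
  have h : msPhi w (X i ^ n : MvPolynomial (Fin m) k) =
      Polynomial.C (X i ^ n) * Polynomial.X ^ (n * w i) := by
    unfold msPhi
    rw [map_pow, aeval_X, mul_pow, ← pow_mul, mul_comm (w i), map_pow]
  unfold msD
  rw [h]
  exact_mod_cast Polynomial.natDegree_C_mul_X_pow_le _ _

end degree

end Pool.Agent.KO.U
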