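import Pool.Agent.KO.U.Defs
import Pool.Agent.KO.U.Deg

/-!
# Project KO, row U3: the wedge of the differential of `b` (helper72)
-/

set_option autoImplicit false
set_option maxHeartbeats 400000

namespace Pool.Agent.KO.U

open MvPolynomial

variable {k : Type} [Field k]

theorem u3_wt (s : Fin 2 →₀ ℕ) : msWt w2 s = 5 * s 0 + 6 * s 1 := by
  unfold msWt w2
  rw [Fin.sum_univ_two]
  simp only [Matrix.cons_val_zero, Matrix.cons_val_one]
  ring

/-- the substitution `u = a X ^ p`, `w = b X ^ q` -/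
noncomputable def u3map (a b : k) (p q : ℕ) : MvPolynomial (Fin 2) k →ₐ[k] Polynomial k :=
  aeval ![Polynomial.C a * Polynomial.X ^ p, Polynomial.C b * Polynomial.X ^ q]

theorem u3map_X0 (a b : k) (p q : ℕ) :
    u3map a b p q (X 0) = Polynomial.C a * Polynomial.X ^ p := by
  unfold u3map
  rw [aeval_X]
  rfl

theorem u3map_X1 (a b : k) (p q : ℕ) :
    u3map a b p q (X 1) = Polynomial.C b * Polynomial.X ^ q := by
  unfold u3map
  rw [aeval_X]
  rfl

theorem u3map_monomial (a b : k) (p q : ℕ) (s : Fin 2 →₀ ℕ) (c : k) :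
    u3map a b p q (monomial s c) =
      Polynomial.C (c * a ^ s 0 * b ^ s 1) * Polynomial.X ^ (p * s 0 + q * s 1) := by
  unfold u3map
  rw [aeval_monomial, Finsupp.prod_fintype _ _ (fun _ => pow_zero _), Fin.prod_univ_two]
  simp only [Matrix.cons_val_zero, Matrix.cons_val_one, Polynomial.algebraMap_eq, map_mul, map_pow,
    mul_pow, ← pow_mul, pow_add]
  ring

theorem u3_coeff (a b : k) (p q : ℕ) (f : MvPolynomial (Fin 2) k) (N : ℕ) :
    (u3map a b p q f).coeff N =
      ∑ s ∈ f.support, if p * s 0 + q * s 1 = N then coeff s f * a ^ s 0 * b ^ s 1 else 0 := by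
  conv_lhs => rw [← support_sum_monomial_coeff f]
  rw [map_sum, Polynomial.finsetSum_coeff]
  refine Finset.sum_congr rfl fun s _ => ?_
  rw [u3map_monomial, Polynomial.coeff_C_mul, Polynomial.coeff_X_pow, mul_ite, mul_one, mul_zero]
  by_cases h : N = p * s 0 + q * s 1
  · rw [if_pos h, if_pos h.symm]
  · rw [if_neg h, if_neg (Ne.symm h)]

theorem u3_natDegree (a b : k) (p q : ℕ) (f : MvPolynomial (Fin 2) k) (M : ℕ)
    (h : ∀ s, coeff s f ≠ 0 → a ^ s 0 * b ^ s 1 ≠ 0 → p * s 0 + q * s 1 ≤ M) :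
    (u3map a b p q f).natDegree ≤ M := by
  rw [Polynomial.natDegree_le_iff_coeff_eq_zero]
  intro N hN
  rw [u3_coeff]
  refine Finset.sum_eq_zero fun s hs => ?_
  by_cases h1 : p * s 0 + q * s 1 = N
  · rw [if_pos h1]
    by_cases h2 : a ^ s 0 * b ^ s 1 = 0
    · rw [mul_assoc, h2, mul_zero]
    · exfalso
      have h3 := h s (mem_support_iff.1 hs) h2
      omega
  · rw [if_neg h1]

theorem u3_eq_zero (a b : k) (p q : ℕ) (f : MvPolynomial (Fin 2) k) (h0 : u3map a b p q f = 0)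
    (ha : a ≠ 0) (hb : b ≠ 0)
    (h : ∀ s s', coeff s f ≠ 0 → coeff s' f ≠ 0 →
      p * s 0 + q * s 1 = p * s' 0 + q * s' 1 → s = s') : f = 0 := by
  by_contra hf
  obtain ⟨s, hs⟩ := MvPolynomial.ne_zero_iff.1 hf
  have h1 := u3_coeff a b p q f (p * s 0 + q * s 1)
  rw [h0, Polynomial.coeff_zero, Finset.sum_eq_single s, if_pos rfl] at h1
  · exact mul_ne_zero (mul_ne_zero hs (pow_ne_zero _ ha)) (pow_ne_zero _ hb) h1.symm
  · intro s' hs' hne
    rw [if_neg]
    intro h2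
    exact hne (h s' s (mem_support_iff.1 hs') hs h2)
  · intro hs'
    exact absurd (mem_support_iff.2 hs) hs'

theorem u3_dvd (f : MvPolynomial (Fin 2) k) (h0 : u3map 1 0 1 1 f = 0) : X 1 ∣ f := by
  rw [X_dvd_iff_modMonomial_eq_zero]
  ext s
  rw [coeff_zero]
  by_cases h1 : Finsupp.single 1 1 ≤ s
  · rw [coeff_modMonomial_of_le _ h1]
  · rw [coeff_modMonomial_of_not_le _ h1]
    have hs1 : s 1 = 0 := by
      by_contra h2
      refine h1 ?_
      rw [Finsupp.single_le_iff]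
      omega
    by_contra hs
    have h3 := u3_coeff (1 : k) 0 1 1 f (s 0)
    rw [h0, Polynomial.coeff_zero, Finset.sum_eq_single s, if_pos (by rw [hs1]; omega), hs1] at h3
    · rw [one_pow, pow_zero, mul_one, mul_one] at h3
      exact hs h3.symm
    · intro s' hs' hne
      by_cases h4 : s' 1 = 0
      · rw [if_neg]
        intro h5
        refine hne (Finsupp.ext fun i => ?_)
        fin_cases i
        · change s' 0 = s 0
          omega
        · change s' 1 = s 1
          omega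
      · rw [zero_pow h4, mul_zero, ite_self]
    · intro hs'
      exact absurd (mem_support_iff.2 hs) hs'

theorem u3_pd1 (t : k) : pderiv 1 (bA t) =
    11 * C t * X 1 ^ 10 + 10 * X 0 * X 1 ^ 9 + X 0 ^ 12 - 9 * X 1 ^ 8 := by
  have h01 : pderiv (1 : Fin 2) (X 0 : MvPolynomial (Fin 2) k) = 0 :=
    pderiv_X_of_ne (by decide)
  unfold bA
  simp only [map_sub, map_add, Derivation.leibniz, Derivation.leibniz_pow, pderiv_C, pderiv_X_self,
    pderiv_one, h01, smul_eq_mul, nsmul_eq_mul, Nat.cast_ofNat]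
  ring

theorem u3_pd0 (t : k) : pderiv 0 (bA t) = X 1 * (X 1 ^ 9 + 12 * X 0 ^ 11) := by
  have h01 : pderiv (0 : Fin 2) (X 1 : MvPolynomial (Fin 2) k) = 0 :=
    pderiv_X_of_ne (by decide)
  unfold bA
  simp only [map_sub, map_add, Derivation.leibniz, Derivation.leibniz_pow, pderiv_C, pderiv_X_self,
    pderiv_one, h01, smul_eq_mul, nsmul_eq_mul, Nat.cast_ofNat]
  ring

theorem u3_bound (t : k) : MsB w2 (bA t) 66 := by
  have h0 : (w2 0 : ℤ) = 5 := rfl
  have h1 : (w2 1 : ℤ) = 6 := rfl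
  have a1 : MsB w2 (C t * X 1 ^ 11 : MvPolynomial (Fin 2) k) 66 :=
    ((MsB.const w2 t).mul (MsB.X_pow w2 1 11)).mono (by rw [h1]; norm_num)
  have a2 : MsB w2 (X 0 * X 1 ^ 10 : MvPolynomial (Fin 2) k) 66 := by
    have h := ((MsB.X_pow (k := k) w2 0 1).mul (MsB.X_pow w2 1 10)).mono
      (M := _) (N := 66) (by rw [h1, h0]; norm_num)
    rwa [pow_one] at h
  have a3 : MsB w2 (X 0 ^ 12 * X 1 : MvPolynomial (Fin 2) k) 66 := by
    have h := ((MsB.X_pow (k := k) w2 0 12).mul (MsB.X_pow w2 1 1)).mono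
      (M := _) (N := 66) (by rw [h1, h0]; norm_num)
    rwa [pow_one] at h
  have a4 : MsB w2 (1 : MvPolynomial (Fin 2) k) 66 := by
    have h := (MsB.const w2 (1 : k)).mono (N := 66) (by norm_num)
    rwa [C_1] at h
  have a5 : MsB w2 (X 1 ^ 9 : MvPolynomial (Fin 2) k) 66 :=
    (MsB.X_pow w2 1 9).mono (by rw [h1]; norm_num)
  unfold bA
  rw [sub_eq_add_neg, sub_eq_add_neg]
  exact (((a1.add a2).add a3).add a4.neg).add a5.neg

theorem u3_lower (t : k) : 66 ≤ msD w2 (bA t) := by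
  have hs : coeff (Finsupp.single 0 12 + Finsupp.single 1 1) (bA t) ≠ 0 := by
    have h1 : coeff (Finsupp.single 0 12 + Finsupp.single 1 1)
        (C t * X 1 ^ 11 : MvPolynomial (Fin 2) k) = 0 := by
      rw [coeff_C_mul, coeff_X_pow, if_neg, mul_zero]
      intro h
      have := DFunLike.congr_fun h 0
      simp at this
    have h2 : coeff (Finsupp.single 0 12 + Finsupp.single 1 1)
        (X 0 * X 1 ^ 10 : MvPolynomial (Fin 2) k) = 0 := by
      rw [show (X 0 * X 1 ^ 10 : MvPolynomial (Fin 2) k) = X 0 * X 1 ^ 9 * X 1 by ring,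
        coeff_mul_X, mul_comm, X_pow_eq_monomial, ← pow_one (X 0), X_pow_eq_monomial, monomial_mul,
        coeff_monomial, if_neg]
      intro h
      have := DFunLike.congr_fun h 0
      simp at this
    have h3 : coeff (Finsupp.single 0 12 + Finsupp.single 1 1)
        (X 0 ^ 12 * X 1 : MvPolynomial (Fin 2) k) = 1 := by
      rw [coeff_mul_X, coeff_X_pow, if_pos rfl]
    have h4 : coeff (Finsupp.single 0 12 + Finsupp.single 1 1)
        (1 : MvPolynomial (Fin 2) k) = 0 := by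
      rw [coeff_one, if_neg]
      intro h
      have := DFunLike.congr_fun h 0
      simp at this
    have h5 : coeff (Finsupp.single 0 12 + Finsupp.single 1 1)
        (X 1 ^ 9 : MvPolynomial (Fin 2) k) = 0 := by
      rw [coeff_X_pow, if_neg]
      intro h
      have := DFunLike.congr_fun h 0
      simp at this
    unfold bA
    rw [coeff_sub, coeff_sub, coeff_add, coeff_add, h1, h2, h3, h4, h5]
    norm_num
  have h := msD_ge w2 hs
  rw [u3_wt] at h
  simp at h
  exact h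

theorem u3_le {f : MvPolynomial (Fin 2) k} {N : ℕ} (h : MsB w2 f N) : msD w2 f ≤ N := by
  rcases h with h | h
  · rw [h, msD_zero]
    exact Nat.zero_le _
  · exact_mod_cast h

theorem u3_of_le {f : MvPolynomial (Fin 2) k} {N : ℕ} (h : msD w2 f ≤ N) : MsB w2 f N :=
  Or.inr (by exact_mod_cast h)

theorem u3_supp {f : MvPolynomial (Fin 2) k} {N : ℕ} (h : msD w2 f ≤ N) (s : Fin 2 →₀ ℕ)
    (hs : coeff s f ≠ 0) : 5 * s 0 + 6 * s 1 ≤ N := by
  rw [← u3_wt]
  exact (msD_ge w2 hs).trans h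

theorem u3_div {f : MvPolynomial (Fin 2) k} {N : ℕ} (h : msD w2 (X 1 * f) ≤ N + 6) :
    msD w2 f ≤ N := by
  by_cases hf : f = 0
  · rw [hf, msD_zero]
    exact Nat.zero_le _
  · rw [msD_mul w2 (X_ne_zero _) hf] at h
    have h1 := msD_X_pow (k := k) w2 1 1
    rw [pow_one] at h1
    have h2 : w2 1 = 6 := rfl
    rw [h2] at h1
    omega

/-- ROW U3 -/
theorem wedge [CharZero k] (t : k) (gu gw h : MvPolynomial (Fin 2) k) (hgu : msD w2 gu ≤ 50)
    (hgw : msD w2 gw ≤ 49)
    (H : gu * pderiv 1 (bA t) - gw * pderiv 0 (bA t) = bA t * h) : gu = 0 := by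
  -- the degree of `h`
  have hh : msD w2 h ≤ 44 := by
    by_cases h0 : h = 0
    · rw [h0, msD_zero]
      exact Nat.zero_le _
    have hb : bA t ≠ 0 := by
      intro hb
      have h1 := u3_lower t
      rw [hb, msD_zero] at h1
      omega
    have b1 : MsB w2 (pderiv 1 (bA t)) 60 := by
      have h1 := MsB.pderiv 1 (u3_bound t)
      exact h1.mono (by norm_num [show (w2 1 : ℕ) = 6 from rfl])
    have b0 : MsB w2 (pderiv 0 (bA t)) 61 := by
      have h1 := MsB.pderiv 0 (u3_bound t)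
      exact h1.mono (by norm_num [show (w2 0 : ℕ) = 5 from rfl])
    have c1 : MsB w2 (gu * pderiv 1 (bA t)) (110 : ℕ) :=
      ((u3_of_le hgu).mul b1).mono (by norm_num)
    have c0 : MsB w2 (gw * pderiv 0 (bA t)) (110 : ℕ) :=
      ((u3_of_le hgw).mul b0).mono (by norm_num)
    have c2 : MsB w2 (bA t * h) (110 : ℕ) := by
      rw [← H, sub_eq_add_neg]
      exact c1.add c0.neg
    have h1 := u3_le c2
    rw [msD_mul w2 hb h0] at h1
    have h2 := u3_lower t
    omega
  -- reduction to the line `w = 0`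
  have p1 : u3map (1 : k) 0 1 1 (X 0) = Polynomial.X := by
    rw [u3map_X0]; simp
  have p2 : u3map (1 : k) 0 1 1 (X 1) = 0 := by
    rw [u3map_X1]; simp
  have hpsi : u3map 1 0 1 1 gu * Polynomial.X ^ 12 = - u3map 1 0 1 1 h := by
    have h1 := congrArg (u3map (1 : k) 0 1 1) H
    rw [u3_pd1, u3_pd0] at h1
    unfold bA at h1
    simp only [map_sub, map_mul, map_add, map_pow, p1, p2, map_one] at h1
    ring_nf at h1 ⊢
    linear_combination h1
  have hdeg : (u3map 1 0 1 1 h).natDegree ≤ 8 := by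
    refine u3_natDegree _ _ _ _ _ _ fun s hs hs2 => ?_
    have h1 := u3_supp hh s hs
    have h2 : s 1 = 0 := by
      by_contra h3
      exact hs2 (by rw [zero_pow h3, mul_zero])
    omega
  have hg0 : u3map 1 0 1 1 gu = 0 := by
    by_contra hne
    have h1 : (u3map (1 : k) 0 1 1 gu * Polynomial.X ^ 12).natDegree =
        (u3map (1 : k) 0 1 1 gu).natDegree + 12 := Polynomial.natDegree_mul_X_pow 12 hne
    rw [hpsi, Polynomial.natDegree_neg] at h1
    omega
  have hh0 : u3map 1 0 1 1 h = 0 := by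
    rw [hg0, zero_mul] at hpsi
    exact neg_eq_zero.1 hpsi.symm
  obtain ⟨g1, rfl⟩ := u3_dvd gu hg0
  obtain ⟨h1, rfl⟩ := u3_dvd h hh0
  have hg1 : msD w2 g1 ≤ 44 := u3_div hgu
  have hh1 : msD w2 h1 ≤ 38 := u3_div hh
  have H2 : g1 * pderiv 1 (bA t) - gw * (X 1 ^ 9 + 12 * X 0 ^ 11) = bA t * h1 := by
    have hX : (X 1 : MvPolynomial (Fin 2) k) ≠ 0 := X_ne_zero _
    refine mul_left_cancel₀ hX ?_
    rw [u3_pd0] at H
    linear_combination H
  -- restriction to the curve `w ^ 9 + 12 u ^ 11 = 0`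
  have h12 : (12 : k) ≠ 0 := by norm_num
  have q1 : u3map ((12 : k) ^ 4) (-12 ^ 5) 9 11 (X 0) =
      Polynomial.C (12 ^ 4) * Polynomial.X ^ 9 := u3map_X0 _ _ _ _
  have q2 : u3map ((12 : k) ^ 4) (-12 ^ 5) 9 11 (X 1) =
      Polynomial.C (-12 ^ 5) * Polynomial.X ^ 11 := u3map_X1 _ _ _ _
  have q3 : ∀ c : k, u3map ((12 : k) ^ 4) (-12 ^ 5) 9 11 (C c) = Polynomial.C c := by
    intro c
    unfold u3map
    rw [aeval_C]
    rfl
  have hC : (Polynomial.C (12 : k)) = (12 : Polynomial k) := rfl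
  have hphi : u3map ((12 : k) ^ 4) (-12 ^ 5) 9 11 g1 *
      (Polynomial.X ^ 88 * (Polynomial.C (11 * t * 12 ^ 50) * Polynomial.X ^ 22 -
        10 * 12 ^ 49 * Polynomial.X ^ 20 + 12 ^ 48 * Polynomial.X ^ 20 - 9 * 12 ^ 40)) =
      (Polynomial.X * (Polynomial.C (t * (-12 ^ 5) ^ 11) * Polynomial.X ^ 120 +
        12 ^ 54 * Polynomial.X ^ 118 - 12 ^ 53 * Polynomial.X ^ 118 +
        12 ^ 45 * Polynomial.X ^ 98) - 1) * u3map ((12 : k) ^ 4) (-12 ^ 5) 9 11 h1 := by
    have h1 := congrArg (u3map ((12 : k) ^ 4) (-12 ^ 5) 9 11) H2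
    rw [u3_pd1] at h1
    unfold bA at h1
    simp only [map_sub, map_mul, map_add, map_pow, q1, q2, q3, map_one, map_neg, map_ofNat] at h1
    simp only [map_mul, map_pow, map_neg, map_ofNat]
    linear_combination h1
  set c1 : Polynomial k := Polynomial.C (11 * t * 12 ^ 50) * Polynomial.X ^ 22 -
    10 * 12 ^ 49 * Polynomial.X ^ 20 + 12 ^ 48 * Polynomial.X ^ 20 - 9 * 12 ^ 40 with hc1
  set c2 : Polynomial k := Polynomial.C (t * (-12 ^ 5) ^ 11) * Polynomial.X ^ 120 +
    12 ^ 54 * Polynomial.X ^ 118 - 12 ^ 53 * Polynomial.X ^ 118 +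
    12 ^ 45 * Polynomial.X ^ 98 with hc2
  have hcop : IsCoprime ((Polynomial.X : Polynomial k) ^ 88) (Polynomial.X * c2 - 1) :=
    IsCoprime.pow_left ⟨c2, -1, by ring⟩
  have hd : (Polynomial.X : Polynomial k) ^ 88 ∣ u3map ((12 : k) ^ 4) (-12 ^ 5) 9 11 h1 := by
    refine hcop.dvd_of_dvd_mul_left ?_
    rw [← hphi]
    exact ⟨u3map ((12 : k) ^ 4) (-12 ^ 5) 9 11 g1 * c1, by ring⟩
  have hd1 : (u3map ((12 : k) ^ 4) (-12 ^ 5) 9 11 h1).natDegree ≤ 69 := by
    refine u3_natDegree _ _ _ _ _ _ fun s hs _ => ?_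
    have h2 := u3_supp hh1 s hs
    omega
  have hz : u3map ((12 : k) ^ 4) (-12 ^ 5) 9 11 h1 = 0 := by
    refine Polynomial.eq_zero_of_dvd_of_natDegree_lt hd ?_
    rw [Polynomial.natDegree_X_pow]
    omega
  have hc : c1 ≠ 0 := by
    intro h0
    have h2 : Polynomial.eval 0 c1 = - (9 * 12 ^ 40) := by
      rw [hc1]
      simp only [Polynomial.eval_sub, Polynomial.eval_add, Polynomial.eval_mul,
        Polynomial.eval_pow, Polynomial.eval_X, Polynomial.eval_C, Polynomial.eval_ofNat]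
      rw [zero_pow (by norm_num : 22 ≠ 0), zero_pow (by norm_num : 20 ≠ 0)]
      ring
    rw [h0, Polynomial.eval_zero] at h2
    have h9 : (9 : k) ≠ 0 := by norm_num
    exact neg_ne_zero.2 (mul_ne_zero h9 (pow_ne_zero 40 h12)) h2.symm
  have hg : u3map ((12 : k) ^ 4) (-12 ^ 5) 9 11 g1 = 0 := by
    clear_value c1 c2
    clear hc1 hc2
    rw [hz, mul_zero] at hphi
    rcases mul_eq_zero.1 hphi with h2 | h2
    · exact h2
    · exact absurd h2 (mul_ne_zero (pow_ne_zero _ Polynomial.X_ne_zero) hc)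
  have hfin : g1 = 0 := by
    refine u3_eq_zero _ _ _ _ g1 hg (pow_ne_zero _ h12) (neg_ne_zero.2 (pow_ne_zero _ h12)) ?_
    intro s s' hs hs' heq
    have h2 := u3_supp hg1 s hs
    have h3 := u3_supp hg1 s' hs'
    refine Finsupp.ext fun i => ?_
    fin_cases i
    · change s 0 = s' 0
      omega
    · change s 1 = s' 1
      omega
  rw [hfin, mul_zero]

end Pool.Agent.KO.U
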