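import Pool.Agent.KO.U.Prime
import Pool.Agent.KO.U.Wedge

/-!
# Project KO, block U: no coprime solution of `Y ^ 2 + X ^ 3 + b Z ^ 6 = 0`
-/

set_option autoImplicit false

namespace Pool.Agent.KO.U

open MvPolynomial

variable {k : Type} [Field k] {m : ℕ}

/-- the derivative of the equation -/
theorem ms_diff {b x y z : MvPolynomial (Fin m) k} (h : y ^ 2 + x ^ 3 + b * z ^ 6 = 0)
    (i : Fin m) : y * (3 * y * pderiv i x - 2 * x * pderiv i y) =
      z ^ 5 * (-(3 * b * z * pderiv i x) + x * z * pderiv i b + 6 * x * b * pderiv i z) := by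
  have h1 := congrArg (pderiv i) h
  rw [map_add, map_add, Derivation.leibniz, Derivation.leibniz_pow, Derivation.leibniz_pow,
    Derivation.leibniz_pow, map_zero] at h1
  simp only [smul_eq_mul, nsmul_eq_mul, Nat.cast_ofNat] at h1
  linear_combination (3 * pderiv i x) * h - x * h1

/-- the divisibility step -/
theorem ms_wedge {b x y z g g' : MvPolynomial (Fin m) k} (hb : Prime b) (hby : ¬ b ∣ y)
    (i j : Fin m)
    (hg : y * g = -(3 * b * z * pderiv i x) + x * z * pderiv i b + 6 * x * b * pderiv i z)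
    (hg' : y * g' = -(3 * b * z * pderiv j x) + x * z * pderiv j b + 6 * x * b * pderiv j z) :
    b ∣ g * pderiv j b - g' * pderiv i b := by
  have h1 : b ∣ y * (g * pderiv j b - g' * pderiv i b) := by
    refine ⟨(-(3 * z * pderiv i x) + 6 * x * pderiv i z) * pderiv j b -
      (-(3 * z * pderiv j x) + 6 * x * pderiv j z) * pderiv i b, ?_⟩
    linear_combination (pderiv j b) * hg - (pderiv i b) * hg'
  exact (hb.dvd_or_dvd h1).resolve_left hby

/-- one vanishing derivative is impossible -/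
theorem ms_final [CharZero k] {b x z : MvPolynomial (Fin m) k} (hb : Prime b) (hbx : ¬ b ∣ x)
    (hz : z ≠ 0) (i : Fin m) (hi : ¬ b ∣ pderiv i b)
    (h : -(3 * b * z * pderiv i x) + x * z * pderiv i b + 6 * x * b * pderiv i z = 0) : False := by
  obtain ⟨e, z', hz', rfl⟩ : ∃ (e : ℕ) (z' : MvPolynomial (Fin m) k), ¬ b ∣ z' ∧
      z = b ^ e * z' := by
    obtain ⟨z', h1, h2⟩ := (FiniteMultiplicity.of_not_isUnit hb.not_isUnit
      hz).exists_eq_pow_mul_and_not_dvd
    exact ⟨_, _, h2, h1⟩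
  have h1 : b * pderiv i (b ^ e) = e * b ^ e * pderiv i b := by
    rw [Derivation.leibniz_pow, smul_eq_mul, nsmul_eq_mul]
    rcases e with _ | e
    · simp
    · rw [Nat.add_sub_cancel]
      ring
  have h2 : b ^ e * (-(3 * b * z' * pderiv i x) + (1 + 6 * e) * (x * z' * pderiv i b) +
      6 * x * b * pderiv i z') = 0 := by
    rw [Derivation.leibniz, smul_eq_mul, smul_eq_mul] at h
    linear_combination h + (-6 * x * z') * h1
  have h3 := (mul_eq_zero.1 h2).resolve_left (pow_ne_zero _ hb.ne_zero)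
  have h4 : b ∣ (1 + 6 * e) * (x * z' * pderiv i b) := by
    refine ⟨3 * z' * pderiv i x - 6 * x * pderiv i z', ?_⟩
    linear_combination h3
  rcases hb.dvd_or_dvd h4 with h5 | h5
  · have h6 : IsUnit ((1 + 6 * e : ℕ) : MvPolynomial (Fin m) k) := by
      rw [← map_natCast (C : k →+* MvPolynomial (Fin m) k)]
      refine IsUnit.map C (IsUnit.mk0 _ ?_)
      exact_mod_cast (by omega : 1 + 6 * e ≠ 0)
    refine hb.not_isUnit (isUnit_of_dvd_unit ?_ h6)
    push_cast
    exact h5
  · rcases hb.dvd_or_dvd h5 with h6 | h6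
    · rcases hb.dvd_or_dvd h6 with h7 | h7
      · exact hbx h7
      · exact hz' h7
    · exact hi h6


theorem msB_bA (t : k) : MsB w2 (bA t) 66 := by
  have h0 : w2 0 = 5 := rfl
  have h1 : w2 1 = 6 := rfl
  have hX : ∀ (i : Fin 2) (n : ℕ) (N : ℤ), (n : ℤ) * w2 i ≤ N →
      MsB w2 (X i ^ n : MvPolynomial (Fin 2) k) N := fun i n N h => (MsB.X_pow w2 i n).mono h
  unfold bA
  rw [sub_eq_add_neg, sub_eq_add_neg]
  refine MsB.add (MsB.add (MsB.add (MsB.add ?_ ?_) ?_) (MsB.neg ?_)) (MsB.neg ?_)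
  · refine ((MsB.const w2 t).mul (hX 1 11 66 (by norm_num [h1]))).mono (by norm_num)
  · have h2 := (hX 0 1 5 (by norm_num [h0])).mul (hX 1 10 60 (by norm_num [h1]))
    rw [pow_one] at h2
    exact h2.mono (by norm_num)
  · have h2 := (hX 0 12 60 (by norm_num [h0])).mul (hX 1 1 6 (by norm_num [h1]))
    rw [pow_one] at h2
    exact h2.mono (by norm_num)
  · have h2 := (MsB.const w2 (1 : k)).mono (show (0 : ℤ) ≤ 66 by norm_num)
    rwa [map_one] at h2
  · exact hX 1 9 66 (by norm_num [h1])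

theorem msD_bA (t : k) : msD w2 (bA t) ≤ 66 := by
  rcases msB_bA t with h | h
  · rw [h, msD_zero]; exact Nat.zero_le _
  · exact_mod_cast h

theorem coeff_bA (t : k) : coeff (Finsupp.single 0 12 + Finsupp.single 1 1) (bA t) = 1 := by
  have h1 : bA t = monomial (Finsupp.single 1 11) t +
      monomial (Finsupp.single 0 1 + Finsupp.single 1 10) 1 +
      monomial (Finsupp.single 0 12 + Finsupp.single 1 1) 1 - monomial 0 1 -
      monomial (Finsupp.single 1 9) 1 := by
    unfold bA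
    simp only [X_pow_eq_monomial]
    simp only [X, monomial_mul, C_mul_monomial, mul_one]
    rfl
  have hne : ∀ s : Fin 2 →₀ ℕ, s 0 ≠ 12 → s ≠ Finsupp.single 0 12 + Finsupp.single 1 1 := by
    intro s hs h
    apply hs
    rw [h]
    simp
  rw [h1, coeff_sub, coeff_sub, coeff_add, coeff_add, coeff_monomial, coeff_monomial,
    coeff_monomial, coeff_monomial, coeff_monomial, if_neg (hne _ (by simp)),
    if_neg (hne _ (by simp)), if_pos rfl, if_neg (hne _ (by simp)), if_neg (hne _ (by simp))]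
  ring

theorem msD_bA_ge (t : k) : 66 ≤ msD w2 (bA t) := by
  have h1 := msD_ge w2 (f := bA t) (s := Finsupp.single 0 12 + Finsupp.single 1 1) (by
    rw [coeff_bA]
    exact one_ne_zero)
  have h2 : msWt w2 (Finsupp.single 0 12 + Finsupp.single 1 1) = 66 := by
    unfold msWt
    rw [Fin.sum_univ_two]
    simp [w2]
  rwa [h2] at h1

theorem pderiv_bA (t : k) : pderiv 0 (bA t) = X 1 ^ 10 + 12 * X 0 ^ 11 * X 1 := by
  unfold bA
  simp only [map_add, map_sub, pderiv_mul, pderiv_C, Derivation.leibniz_pow, pderiv_X_self,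
    pderiv_X_of_ne (show (1 : Fin 2) ≠ 0 by decide), Derivation.map_one_eq_zero, smul_eq_mul,
    nsmul_eq_mul, mul_zero, zero_mul, add_zero, zero_add, sub_zero, mul_one, smul_zero]
  norm_num

theorem not_dvd_pderiv [CharZero k] (t : k) : ¬ bA t ∣ pderiv 0 (bA t) := by
  rintro ⟨q, hq⟩
  have hne : pderiv 0 (bA t) ≠ 0 := by
    rw [pderiv_bA]
    intro h
    have h1 := congrArg (eval (fun i : Fin 2 => (1 : k))) h
    simp only [map_add, map_mul, map_pow, eval_X, map_zero, map_ofNat, one_pow, mul_one] at h1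
    have h2 : ((13 : ℕ) : k) = 0 := by
      rw [← h1]
      norm_num
    exact absurd h2 (by norm_num)
  have h1 : MsB w2 (pderiv 0 (bA t)) (66 - 5) := (msB_bA t).pderiv 0
  have h2 := h1.resolve_left hne
  rw [hq] at hne
  have h3 := msD_mul w2 (left_ne_zero_of_mul hne) (right_ne_zero_of_mul hne)
  rw [hq] at h2
  have h4 := msD_bA_ge t
  omega

/-- THE MASON TYPE THEOREM -/
theorem mason [CharZero k] (t : k) {X Y Z : MvPolynomial (Fin 2) k} (hZ : Z ≠ 0)
    (hYZ : IsRelPrime Y Z) : Y ^ 2 + X ^ 3 + bA t * Z ^ 6 ≠ 0 := by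
  intro hE
  have hb : Prime (bA t) := prime_bA t
  -- `b` does not divide `Y`, `X`
  have hbY : ¬ bA t ∣ Y := by
    intro h1
    have h2 : bA t ∣ X ^ 3 := by
      obtain ⟨q, hq⟩ := h1
      refine ⟨-(q * Y + Z ^ 6), ?_⟩
      linear_combination hE - Y * hq
    obtain ⟨q, hq⟩ := h1
    obtain ⟨r, hr⟩ := hb.dvd_of_dvd_pow h2
    have h3 : bA t * (bA t * (q ^ 2 + bA t * r ^ 3) + Z ^ 6) = 0 := by
      rw [hq, hr] at hE
      linear_combination hE
    have h4 := (mul_eq_zero.1 h3).resolve_left hb.ne_zero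
    have h5 : bA t ∣ Z ^ 6 := ⟨-(q ^ 2 + bA t * r ^ 3), by linear_combination h4⟩
    exact hb.not_isUnit (hYZ ⟨q, hq⟩ (hb.dvd_of_dvd_pow h5))
  have hbX : ¬ bA t ∣ X := by
    rintro ⟨q, hq⟩
    refine hbY (hb.dvd_of_dvd_pow (n := 2) ?_)
    refine ⟨-(q * X ^ 2 + Z ^ 6), ?_⟩
    linear_combination hE - X ^ 2 * hq
  have hY0 : Y ≠ 0 := fun h => hbY (h ▸ dvd_zero _)
  have hX0 : X ≠ 0 := fun h => hbX (h ▸ dvd_zero _)
  -- the polynomials `g`
  have hG : ∀ i, ∃ g, 3 * Y * pderiv i X - 2 * X * pderiv i Y = Z ^ 5 * g ∧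
      Y * g = -(3 * bA t * Z * pderiv i X) + X * Z * pderiv i (bA t) +
        6 * X * bA t * pderiv i Z := by
    intro i
    have h1 := ms_diff hE i
    have h2 : Z ^ 5 ∣ 3 * Y * pderiv i X - 2 * X * pderiv i Y := by
      refine IsRelPrime.dvd_of_dvd_mul_left (IsRelPrime.pow_left (hYZ.symm)) ⟨_, h1⟩
    obtain ⟨g, hg⟩ := h2
    refine ⟨g, hg, ?_⟩
    rw [hg] at h1
    refine mul_left_cancel₀ (pow_ne_zero 5 hZ) ?_
    linear_combination h1
  choose g hg1 hg2 using hG
  -- degree bound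
  have hdeg : ∀ i, g i ≠ 0 → msD w2 (g i) + w2 i ≤ 5 * 11 := by
    intro i hgi
    set e := msD w2 Z with he
    set x := msD w2 X with hx
    set y := msD w2 Y with hy
    have hbD : MsB w2 (bA t) (6 * (11 : ℤ)) := by
      right
      exact_mod_cast msD_bA t
    have hbZ : MsB w2 (bA t * Z ^ 6) (6 * (11 : ℤ) + 6 * e) := by
      refine hbD.mul (Or.inr ?_)
      rw [msD_pow]
      push_cast
      exact le_rfl
    have hX3 : 3 * (x : ℤ) ≤ max (2 * (y : ℤ)) (6 * (11 : ℤ) + 6 * (e : ℤ)) := by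
      have h1 : MsB w2 (X ^ 3) (max (2 * (y : ℤ)) (6 * (11 : ℤ) + 6 * (e : ℤ))) := by
        have h2 : X ^ 3 = -(Y ^ 2) + -(bA t * Z ^ 6) := by linear_combination hE
        rw [h2]
        refine MsB.add (MsB.neg ?_) (MsB.neg (hbZ.mono (le_max_right _ _)))
        right
        rw [msD_pow]
        push_cast
        exact le_max_left _ _
      have h3 := h1.resolve_left (pow_ne_zero 3 hX0)
      rw [msD_pow] at h3
      push_cast at h3
      exact h3
    have h3 : ∀ c : ℕ, MsB w2 (c : MvPolynomial (Fin 2) k) 0 := by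
      intro c
      rw [← map_natCast (C : k →+* MvPolynomial (Fin 2) k)]
      exact MsB.const w2 _
    by_cases hc : 6 * (11 : ℤ) + 6 * (e : ℤ) < 2 * (y : ℤ)
    · rw [max_eq_left hc.le] at hX3
      have h1 : MsB w2 (Y * g i) (6 * 11 + e + x - w2 i) := by
        rw [hg2 i]
        refine MsB.add (MsB.add (MsB.neg ?_) ?_) ?_
        · refine ((((h3 3).mul hbD).mul (MsB.self w2 Z)).mul
            ((MsB.self w2 X).pderiv i)).mono ?_
          linarith
        · refine (((MsB.self w2 X).mul (MsB.self w2 Z)).mul (hbD.pderiv i)).mono ?_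
          linarith
        · refine ((((h3 6).mul (MsB.self w2 X)).mul hbD).mul ((MsB.self w2 Z).pderiv i)).mono ?_
          linarith
      have h2 := h1.resolve_left (mul_ne_zero hY0 hgi)
      rw [msD_mul w2 hY0 hgi] at h2
      push_cast at h2
      have h4 : ((msD w2 (g i) + w2 i : ℕ) : ℤ) ≤ ((5 * 11 : ℕ) : ℤ) := by
        push_cast
        linarith
      exact_mod_cast h4
    · rw [max_eq_right (not_lt.1 hc)] at hX3
      have h1 : MsB w2 (Z ^ 5 * g i) (x + y - w2 i) := by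
        rw [← hg1 i, sub_eq_add_neg]
        refine MsB.add ?_ (MsB.neg ?_)
        · refine (((h3 3).mul (MsB.self w2 Y)).mul ((MsB.self w2 X).pderiv i)).mono ?_
          linarith
        · refine (((h3 2).mul (MsB.self w2 X)).mul ((MsB.self w2 Y).pderiv i)).mono ?_
          linarith
      have h2 := h1.resolve_left (mul_ne_zero (pow_ne_zero 5 hZ) hgi)
      rw [msD_mul w2 (pow_ne_zero 5 hZ) hgi, msD_pow] at h2
      push_cast at h2
      have h4 : ((msD w2 (g i) + w2 i : ℕ) : ℤ) ≤ ((5 * 11 : ℕ) : ℤ) := by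
        push_cast
        have := not_lt.1 hc
        linarith
      exact_mod_cast h4
  have hw0 : w2 0 = 5 := rfl
  have hw1 : w2 1 = 6 := rfl
  have hd0 : msD w2 (g 0) ≤ 50 := by
    by_cases h : g 0 = 0
    · rw [h, msD_zero]; exact Nat.zero_le _
    · have := hdeg 0 h
      omega
  have hd1 : msD w2 (g 1) ≤ 49 := by
    by_cases h : g 1 = 0
    · rw [h, msD_zero]; exact Nat.zero_le _
    · have := hdeg 1 h
      omega
  obtain ⟨h, hh⟩ := ms_wedge hb hbY 0 1 (hg2 0) (hg2 1)
  have hg0 : g 0 = 0 := wedge t (g 0) (g 1) h hd0 hd1 hh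
  refine ms_final hb hbX hZ 0 ?_ ?_
  · exact not_dvd_pderiv t
  · rw [← hg2 0, hg0, mul_zero]

end Pool.Agent.KO.U
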