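import Pool.Agent.KO.U.Defs

/-!
# Project KO, block U: the sextic is irreducible (row U2)
-/

set_option autoImplicit false

namespace Pool.Agent.KO.U

open MvPolynomial

variable {k : Type} [Field k]

private theorem pr_coeff {A : Type} [CommRing A] (w c : A) (n : ℕ) :
    (Polynomial.C c * Polynomial.X ^ 12 + Polynomial.C (w ^ 10) * Polynomial.X ^ 11 +
      Polynomial.C w).coeff n =
      (if n = 12 then c else 0) + (if n = 11 then w ^ 10 else 0) + (if n = 0 then w else 0) := by
  rw [Polynomial.coeff_add, Polynomial.coeff_add, Polynomial.coeff_C_mul_X_pow,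
    Polynomial.coeff_C_mul_X_pow, Polynomial.coeff_C]

private theorem pr_isUnit {A : Type} [CommRing A] [IsDomain A] {a : Polynomial A}
    (ha : a.coeff 0 ≠ 0) (h : IsUnit a.reverse) : IsUnit a := by
  have h1 := Polynomial.natDegree_eq_zero_of_isUnit h
  rw [Polynomial.reverse_natDegree] at h1
  have h2 : a.natTrailingDegree ≤ 0 := Polynomial.natTrailingDegree_le_of_ne_zero ha
  have h3 : a.natDegree = 0 := by omega
  rw [Polynomial.eq_C_of_natDegree_eq_zero h3] at h ⊢
  rwa [Polynomial.reverse_C] at h

/-- the reverse is an Eisenstein polynomial -/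
theorem irreducible_aux {A : Type} [CommRing A] [IsDomain A] {w c : A} (hw : Prime w)
    (hc : ¬ w ∣ c) :
    Irreducible (Polynomial.C w * Polynomial.X ^ 12 + Polynomial.C (w ^ 10) * Polynomial.X +
      Polynomial.C c) := by
  have hc0 : c ≠ 0 := fun h => hc (h ▸ dvd_zero w)
  have hw0 := hw.ne_zero
  have hfd : (Polynomial.C w * Polynomial.X ^ 12 + Polynomial.C (w ^ 10) * Polynomial.X +
      Polynomial.C c).natDegree = 12 := by
    compute_degree!
  have hgd : (Polynomial.C c * Polynomial.X ^ 12 + Polynomial.C (w ^ 10) * Polynomial.X ^ 11 +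
      Polynomial.C w).natDegree = 12 := by
    compute_degree!
  have hg0 : (Polynomial.C c * Polynomial.X ^ 12 + Polynomial.C (w ^ 10) * Polynomial.X ^ 11 +
      Polynomial.C w) ≠ 0 := by
    intro h
    rw [h, Polynomial.natDegree_zero] at hgd
    omega
  have hgdeg : (Polynomial.C c * Polynomial.X ^ 12 + Polynomial.C (w ^ 10) * Polynomial.X ^ 11 +
      Polynomial.C w).degree = ((12 : ℕ) : WithBot ℕ) := by
    rw [Polynomial.degree_eq_natDegree hg0, hgd]
  have hrev : (Polynomial.C w * Polynomial.X ^ 12 + Polynomial.C (w ^ 10) * Polynomial.X +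
      Polynomial.C c).reverse = Polynomial.C c * Polynomial.X ^ 12 +
        Polynomial.C (w ^ 10) * Polynomial.X ^ 11 + Polynomial.C w := by
    have e : Polynomial.C w * Polynomial.X ^ 12 + Polynomial.C (w ^ 10) * Polynomial.X +
      Polynomial.C c = Polynomial.C w * Polynomial.X ^ 12 +
        Polynomial.C (w ^ 10) * Polynomial.X ^ 1 + Polynomial.C c * Polynomial.X ^ 0 := by
      rw [pow_one, pow_zero, mul_one]
    rw [Polynomial.reverse, hfd, e, Polynomial.reflect_add, Polynomial.reflect_add,
      Polynomial.reflect_C_mul_X_pow, Polynomial.reflect_C_mul_X_pow,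
      Polynomial.reflect_C_mul_X_pow, Polynomial.revAt_le (by norm_num),
      Polynomial.revAt_le (by norm_num), Polynomial.revAt_le (by norm_num)]
    norm_num
    ring
  have hg : Irreducible (Polynomial.C c * Polynomial.X ^ 12 +
      Polynomial.C (w ^ 10) * Polynomial.X ^ 11 + Polynomial.C w) := by
    refine Polynomial.irreducible_of_eisenstein_criterion (P := Ideal.span {w}) ?_ ?_ ?_ ?_ ?_ ?_
    · rwa [Ideal.span_singleton_prime hw0]
    · rw [Polynomial.leadingCoeff, hgd, pr_coeff, Ideal.mem_span_singleton]
      simpa using hc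
    · intro n hn
      rw [hgdeg] at hn
      have hn' : n < 12 := by exact_mod_cast hn
      rw [pr_coeff, Ideal.mem_span_singleton, if_neg (by omega), zero_add]
      refine dvd_add ?_ ?_
      · split_ifs
        · exact dvd_pow_self w (by norm_num)
        · exact dvd_zero w
      · split_ifs
        · exact dvd_refl w
        · exact dvd_zero w
    · rw [hgdeg]
      exact_mod_cast (by norm_num : 0 < 12)
    · rw [pr_coeff, Ideal.span_singleton_pow, Ideal.mem_span_singleton]
      rw [if_neg (by norm_num), if_neg (by norm_num), if_pos rfl, zero_add, zero_add]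
      rintro ⟨q, hq⟩
      have h1 : w * (w * q) = w * 1 := by
        rw [mul_one]
        calc w * (w * q) = w ^ 2 * q := by ring
          _ = w := hq.symm
      exact hw.not_isUnit (IsUnit.of_mul_eq_one _ (mul_left_cancel₀ hw0 h1))
    · intro r hr
      rw [Polynomial.C_dvd_iff_dvd_coeff] at hr
      have h0 := hr 0
      have h12 := hr 12
      rw [pr_coeff] at h0 h12
      rw [if_neg (by norm_num), if_neg (by norm_num), if_pos rfl, zero_add, zero_add] at h0
      rw [if_pos rfl, if_neg (by norm_num), if_neg (by norm_num), add_zero, add_zero] at h12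
      rcases hw.irreducible.dvd_iff.1 h0 with h | h
      · exact h
      · exact absurd (h.dvd.trans h12) hc
  refine ⟨?_, ?_⟩
  · intro h
    have := Polynomial.natDegree_eq_zero_of_isUnit h
    omega
  · intro a b hab
    have h1 := congrArg Polynomial.reverse hab
    rw [hrev, Polynomial.reverse_mul_of_domain] at h1
    have h2 := congrArg (fun P => Polynomial.coeff P 0) hab
    simp only [Polynomial.mul_coeff_zero, Polynomial.coeff_add, Polynomial.coeff_C_zero,
      Polynomial.coeff_X_pow, Polynomial.coeff_X_zero, mul_zero] at h2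
    norm_num at h2
    have ha : a.coeff 0 ≠ 0 := fun h => hc0 (by rw [h2, h, zero_mul])
    have hb : b.coeff 0 ≠ 0 := fun h => hc0 (by rw [h2, h, mul_zero])
    rcases hg.isUnit_or_isUnit h1 with h | h
    · exact Or.inl (pr_isUnit ha h)
    · exact Or.inr (pr_isUnit hb h)

private theorem pr_equiv (t : k) : finSuccEquiv k 1 (bA t) =
    Polynomial.C (X 0) * Polynomial.X ^ 12 + Polynomial.C ((X 0) ^ 10) * Polynomial.X +
      Polynomial.C (C t * X 0 ^ 11 - 1 - X 0 ^ 9) := by
  have h1 : (X 1 : MvPolynomial (Fin 2) k) = X (Fin.succ 0) := rfl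
  unfold bA
  rw [h1]
  simp only [map_add, map_sub, map_mul, map_pow, map_one, finSuccEquiv_X_zero,
    finSuccEquiv_X_succ]
  have h2 : finSuccEquiv k 1 (C t) = Polynomial.C (C t) := by
    rw [← MvPolynomial.algebraMap_eq, AlgEquiv.commutes]
    rfl
  rw [h2]
  ring

theorem prime_bA (t : k) : Prime (bA t) := by
  have h : Irreducible (bA t) := by
    rw [← MulEquiv.irreducible_iff (finSuccEquiv k 1), pr_equiv]
    refine irreducible_aux X_prime ?_
    rintro ⟨q, hq⟩
    have h1 := congrArg (MvPolynomial.eval (fun _ => (0 : k))) hq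
    simp at h1
  exact h.prime

end Pool.Agent.KO.U
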